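import Mathlib

set_option autoImplicit false

namespace Pool.Agent.Results.MP_6050fa_nt.Coprime

lemma two_mul_le (t : ℕ) (ht : 1 ≤ t) : 2 * t ≤ 2 ^ t := by
  induction t, ht using Nat.le_induction with
  | base => norm_num
  | succ k hk ih =>
    rw [pow_succ]
    omega

/-- the size estimate -/
lemma size {x d e : ℕ} (hx : 2 ≤ x) (hd : 2 ≤ d) (he : 1 ≤ e) : d * e ≤ (x ^ e) ^ (d - 1) := by
  rw [← pow_mul]
  have h1 : e ≤ e * (d - 1) := Nat.le_mul_of_pos_right e (by omega)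
  have h2 : d * e = e * (d - 1) + e := by
    obtain ⟨c, rfl⟩ : ∃ c, d = c + 1 := ⟨d - 1, by omega⟩
    rw [Nat.add_sub_cancel]
    ring
  calc d * e ≤ 2 * (e * (d - 1)) := by omega
    _ ≤ 2 ^ (e * (d - 1)) := two_mul_le _ (by omega)
    _ ≤ x ^ (e * (d - 1)) := Nat.pow_le_pow_left hx _

/-- two perfect powers with a common exponent are far apart -/
lemma far {A B d n : ℕ} (hB : 1 ≤ B) (hd : 2 ≤ d) (hn : n ≤ A ^ (d - 1)) (hn0 : 1 ≤ n) :
    A ^ d ≠ B ^ d + n ∧ A ^ d + n ≠ B ^ d := by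
  obtain ⟨c, rfl⟩ : ∃ c, d = c + 1 := ⟨d - 1, by omega⟩
  rw [Nat.add_sub_cancel] at hn
  have hc : c ≠ 0 := by omega
  constructor
  · intro h
    have h1 : B < A := by
      by_contra hcon
      have := Nat.pow_le_pow_left (not_lt.mp hcon) (c + 1)
      omega
    have h3 : B ^ (c + 1) < B * A ^ c := by
      rw [pow_succ, mul_comm]
      exact Nat.mul_lt_mul_of_pos_left (Nat.pow_lt_pow_left h1 hc) hB
    have h4 : (B + 1) * A ^ c ≤ A * A ^ c := Nat.mul_le_mul_right _ h1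
    have h5 : A ^ (c + 1) = A * A ^ c := by rw [pow_succ, mul_comm]
    have h6 : (B + 1) * A ^ c = B * A ^ c + A ^ c := by ring
    omega
  · intro h
    have h1 : A < B := by
      by_contra hcon
      have := Nat.pow_le_pow_left (not_lt.mp hcon) (c + 1)
      omega
    have h3 : B * A ^ c < B ^ (c + 1) := by
      rw [pow_succ, mul_comm (B ^ c) B]
      exact Nat.mul_lt_mul_of_pos_left (Nat.pow_lt_pow_left h1 hc) (by omega)
    have h4 : (A + 1) * A ^ c ≤ B * A ^ c := Nat.mul_le_mul_right _ h1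
    have h5 : A ^ (c + 1) = A * A ^ c := by rw [pow_succ, mul_comm]
    have h6 : (A + 1) * A ^ c = A * A ^ c + A ^ c := by ring
    omega

lemma coprime {x n y m : ℕ} (hx : 2 ≤ x) (hn : 2 ≤ n) (hy : 2 ≤ y) (hm : 2 ≤ m)
    (h : x ^ n = y ^ m + n ∨ x ^ n + n = y ^ m) : Nat.Coprime m n := by
  by_contra hcon
  have hg : 2 ≤ Nat.gcd m n := by
    have h1 : 0 < Nat.gcd m n := Nat.gcd_pos_of_pos_left n (by omega)
    have h2 : Nat.gcd m n ≠ 1 := hcon
    omega
  obtain ⟨f, hf⟩ := Nat.gcd_dvd_left m n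
  obtain ⟨e, he⟩ := Nat.gcd_dvd_right m n
  generalize Nat.gcd m n = d at *
  have he1 : 1 ≤ e := by
    rcases Nat.eq_zero_or_pos e with h0 | h0
    · subst h0
      omega
    · exact h0
  have hB : 1 ≤ y ^ f := Nat.one_le_pow _ _ (by omega)
  have hs := size hx hg he1
  have hfar := far hB hg (n := n) (by rw [he]; exact hs) (by omega)
  have hxe : (x ^ e) ^ d = x ^ n := by rw [← pow_mul, mul_comm e d, ← he]
  have hyf : (y ^ f) ^ d = y ^ m := by rw [← pow_mul, mul_comm f d, ← hf]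
  rw [hxe, hyf] at hfar
  rcases h with h | h
  · exact hfar.1 h
  · exact hfar.2 h

lemma valuation {x n y m p : ℕ} (hn : 2 ≤ n) (hy : 2 ≤ y)
    (h : x ^ n = y ^ m + n ∨ x ^ n + n = y ^ m) (hp : p.Prime) (hpx : p ∣ x) :
    m ∣ n.factorization p := by
  have hn0 : n ≠ 0 := by omega
  have h1 : p ^ n.factorization p ∣ n := Nat.ordProj_dvd n p
  have h2 : ¬ p ^ (n.factorization p + 1) ∣ n := Nat.pow_succ_factorization_not_dvd hn0 hp
  have hk : n.factorization p < n := Nat.factorization_lt p hn0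
  have h3 : p ^ (n.factorization p + 1) ∣ x ^ n :=
    (pow_dvd_pow_of_dvd hpx _).trans (pow_dvd_pow x hk)
  have h4 : p ^ n.factorization p ∣ x ^ n := (pow_dvd_pow p (Nat.le_succ _)).trans h3
  have hy0 : y ^ m ≠ 0 := pow_ne_zero _ (by omega)
  have h5 : p ^ n.factorization p ∣ y ^ m ∧ ¬ p ^ (n.factorization p + 1) ∣ y ^ m := by
    rcases h with h | h
    · rw [h] at h3 h4
      exact ⟨(Nat.dvd_add_left h1).mp h4, fun hc => h2 ((Nat.dvd_add_right hc).mp h3)⟩
    · rw [← h]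
      exact ⟨dvd_add h4 h1, fun hc => h2 ((Nat.dvd_add_right h3).mp hc)⟩
  have h6 : (y ^ m).factorization p = n.factorization p := by
    have a1 := (hp.pow_dvd_iff_le_factorization hy0).mp h5.1
    have a2 := mt (hp.pow_dvd_iff_le_factorization hy0).mpr h5.2
    omega
  rw [← h6, Nat.factorization_pow]
  exact ⟨y.factorization p, by simp⟩

/-- If `x, n, y, m ≥ 2` and `x ^ n - n = y ^ m` or `x ^ n + n = y ^ m`, then `m` and `n` are coprime,
and the exponent in `n` of every prime divisor of `x` is a multiple of `m`. -/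
theorem result (x n y m : ℕ) (hx : 2 ≤ x) (hn : 2 ≤ n) (hy : 2 ≤ y) (hm : 2 ≤ m)
    (h : x ^ n = y ^ m + n ∨ x ^ n + n = y ^ m) :
    Nat.Coprime m n ∧ ∀ p : ℕ, p.Prime → p ∣ x → m ∣ n.factorization p :=
  ⟨coprime hx hn hy hm h, fun _ hp hpx => valuation hn hy h hp hpx⟩

end Pool.Agent.Results.MP_6050fa_nt.Coprime
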